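import Mathlib
import Pool.Agent.Y984.MD.Final

set_option autoImplicit false

/-! MP_291ce2_pr, Q1 (proved). For every constant `c > 0` the censored chain `M_A` on a monotone
subset `A` of the hypercube with `P(A) ≥ c` has mixing time at most `C(c) n log n`, with
`C(c) = 10^12 / c^8`.

The analytic work is the starting development `Pool.Agent.Y984.MD` (the lazy censored walk of
MP_52661b_pr). Here the kernel of `M_A` (replace a uniformly chosen coordinate by a fresh uniform
bit, keep the old state if the proposal leaves `A`) is identified with the kernel of that walk. -/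

namespace Pool.Agent.Results.MP_291ce2_pr.CensoredMixing

open Finset

/-- The hypercube `{0,1}^n`. -/
abbrev Cube (n : ℕ) : Type := Fin n → Bool

/-- `A` is monotone: `x ∈ A` and `x ≤ y` coordinatewise imply `y ∈ A`. -/
def MonotoneSet {n : ℕ} (A : Finset (Cube n)) : Prop :=
  ∀ x ∈ A, ∀ y : Cube n, (∀ i, x i ≤ y i) → y ∈ A

/-- The uniform probability of `A`. -/
noncomputable def prob {n : ℕ} (A : Finset (Cube n)) : ℝ := (A.card : ℝ) / 2 ^ n

/-- The next state of `M_A` from `x` if coordinate `i` and the fresh bit `b` were chosen: the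
proposal `y = Function.update x i b` (coordinate `i` replaced by `b`) if `y ∈ A`, and `x`
otherwise. -/
def next {n : ℕ} (A : Finset (Cube n)) (x : Cube n) (i : Fin n) (b : Bool) : Cube n :=
  if Function.update x i b ∈ A then Function.update x i b else x

/-- The transition kernel of `M_A`: the coordinate `i` is uniform in `Fin n` and the bit `b` is
uniform in `{0,1}`. -/
noncomputable def kernel {n : ℕ} (A : Finset (Cube n)) : Matrix A A ℝ := fun x y =>
  ∑ i : Fin n, (1 / (n : ℝ)) * ∑ b : Bool, (1 / 2 : ℝ) * (if next A x.1 i b = y.1 then 1 else 0)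

/-- Total variation distance of two mass functions on `A`. -/
noncomputable def tv {n : ℕ} {A : Finset (Cube n)} (μ ν : A → ℝ) : ℝ :=
  (1 / 2) * ∑ y, |μ y - ν y|

/-- The uniform distribution on `A`. -/
noncomputable def unif {n : ℕ} (A : Finset (Cube n)) : A → ℝ := fun _ => 1 / (A.card : ℝ)

/-- The mixing time: the least `t` such that from every starting state the law after `t` steps is
within total variation distance `1/4` of the uniform distribution. -/
noncomputable def mixingTime {n : ℕ} (A : Finset (Cube n)) : ℕ :=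
  sInf {t | ∀ x : A, tv ((kernel A ^ t) x) (unif A) ≤ 1 / 4}

lemma next_self {n : ℕ} {A : Finset (Cube n)} {x : Cube n} (hx : x ∈ A) (i : Fin n) :
    next A x i (x i) = x := by
  simp [next, hx]

lemma next_not {n : ℕ} {A : Finset (Cube n)} {x : Cube n} (i : Fin n) :
    next A x i (!(x i)) = Y984.MD.mv A x i := rfl

lemma sum_bool {n : ℕ} {A : Finset (Cube n)} (x y : A) (i : Fin n) :
    (∑ b : Bool, (1 / 2 : ℝ) * (if next A x.1 i b = y.1 then 1 else 0)) =
      (1 / 2) * (if y = x then 1 else 0) +
        (1 / 2) * (if Y984.MD.mv A x.1 i = y.1 then 1 else 0) := by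
  have h1 : (∑ b : Bool, (1 / 2 : ℝ) * (if next A x.1 i b = y.1 then 1 else 0)) =
      (1 / 2 : ℝ) * (if next A x.1 i (x.1 i) = y.1 then 1 else 0) +
        (1 / 2 : ℝ) * (if next A x.1 i (!(x.1 i)) = y.1 then 1 else 0) := by
    rw [Fintype.sum_bool]
    cases x.1 i
    · simp only [Bool.not_false]; ring
    · simp only [Bool.not_true]
  rw [h1, next_self x.2, next_not]
  have h2 : (x.1 = y.1) ↔ (y = x) := ⟨fun h => Subtype.ext h.symm, fun h => by rw [h]⟩
  simp only [h2]

lemma kernel_eq {n : ℕ} (hn : 0 < n) (A : Finset (Cube n)) : kernel A = Y984.MD.P A := by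
  have hn' : (n : ℝ) ≠ 0 := by positivity
  funext x y
  unfold kernel Y984.MD.P
  simp only [sum_bool]
  rw [← Finset.mul_sum, Finset.sum_add_distrib, Finset.sum_const, ← Finset.mul_sum,
    Finset.sum_boole, Finset.card_univ, Fintype.card_fin, nsmul_eq_mul]
  field_simp

lemma mixingTime_eq {n : ℕ} (hn : 0 < n) (A : Finset (Cube n)) :
    mixingTime A = Y984.MD.tmix A := by
  unfold mixingTime Y984.MD.tmix
  rw [kernel_eq hn]
  rfl

/-- For every `c > 0` there is `C > 0` such that for all `n ≥ 2` and every monotone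
`A ⊆ {0,1}^n` with `P(A) ≥ c`, the mixing time of `M_A` is attained (from every start the chain
is within `1/4` of uniform at time `mixingTime A`) and is at most `C n log n`. -/
theorem result : ∀ c : ℝ, 0 < c → ∃ C : ℝ, 0 < C ∧ ∀ n : ℕ, 2 ≤ n →
    ∀ A : Finset (Cube n), MonotoneSet A → c ≤ prob A →
      (∀ x : A, tv ((kernel A ^ mixingTime A) x) (unif A) ≤ 1 / 4) ∧
        (mixingTime A : ℝ) ≤ C * (n * Real.log n) := by
  intro c hc
  refine ⟨10 ^ 12 / c ^ 8, by positivity, ?_⟩
  intro n hn A hA hcA
  have hn0 : 0 < n := by omega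
  have hne : A.Nonempty := by
    rw [Finset.nonempty_iff_ne_empty]
    rintro rfl
    simp [prob] at hcA
    linarith
  obtain ⟨h1, h2⟩ := Y984.MD.final n hn A hne hA
  rw [mixingTime_eq hn0]
  refine ⟨?_, ?_⟩
  · rw [kernel_eq hn0]
    exact h1
  · refine h2.trans ?_
    have hlog : 0 ≤ Real.log n := Real.log_nonneg (by exact_mod_cast hn0)
    have hd : c ≤ Y984.MD.dens A := hcA
    have h3 : c ^ 8 ≤ Y984.MD.dens A ^ 8 := pow_le_pow_left₀ hc.le hd 8
    have h4 : 10 ^ 12 * (n * Real.log n) / Y984.MD.dens A ^ 8 ≤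
        10 ^ 12 * (n * Real.log n) / c ^ 8 := by
      apply div_le_div_of_nonneg_left _ (by positivity) h3
      positivity
    calc _ ≤ 10 ^ 12 * (n * Real.log n) / c ^ 8 := h4
      _ = 10 ^ 12 / c ^ 8 * (n * Real.log n) := by ring

end Pool.Agent.Results.MP_291ce2_pr.CensoredMixing
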